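import Pool.Agent.helper96.PP2.SpecA

/-!
# Row SHA: injectivity of the Shapiro map in degree two
-/

namespace Pool.Agent.PP2

open Topology Matrix

section SHA

variable {G : Type} [Group G]

/-- A choice of the `N` component. -/
theorem SHA_exu (N : Subgroup G) : ∃ u : G → N, (∀ (v : N) (x : G), u ((v : G) * x) = v * u x) ∧
    ∀ v : N, u (v : G) = v := by
  classical
  let t : G → G := fun x => if x ∈ N then 1 else (Quotient.mk (QuotientGroup.rightRel N) x).out
  have ht : ∀ x, x * (t x)⁻¹ ∈ N := by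
    intro x
    by_cases hx : x ∈ N
    · have h1 : t x = 1 := if_pos hx
      rw [h1, inv_one, mul_one]
      exact hx
    · have h1 : t x = (Quotient.mk (QuotientGroup.rightRel N) x).out := if_neg hx
      rw [h1]
      have h2 : QuotientGroup.rightRel N (Quotient.mk (QuotientGroup.rightRel N) x).out x :=
        Quotient.exact (Quotient.out_eq _)
      exact QuotientGroup.rightRel_apply.1 h2
  have ht1 : ∀ v ∈ N, t v = 1 := fun v hv => if_pos hv
  have ht2 : ∀ v ∈ N, ∀ x, t (v * x) = t x := by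
    intro v hv x
    by_cases hx : x ∈ N
    · rw [ht1 _ hx, ht1 _ (N.mul_mem hv hx)]
    · have hx' : v * x ∉ N := fun h => hx ((N.mul_mem_cancel_left hv).1 h)
      have h1 : t x = (Quotient.mk (QuotientGroup.rightRel N) x).out := if_neg hx
      have h2 : t (v * x) = (Quotient.mk (QuotientGroup.rightRel N) (v * x)).out := if_neg hx'
      rw [h1, h2]
      have h3 : Quotient.mk (QuotientGroup.rightRel N) (v * x)
          = Quotient.mk (QuotientGroup.rightRel N) x := by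
        apply Quotient.sound
        apply QuotientGroup.rightRel_apply.2
        have h4 : x * (v * x)⁻¹ = v⁻¹ := by group
        rw [h4]
        exact N.inv_mem hv
      rw [h3]
  refine ⟨fun x => ⟨x * (t x)⁻¹, ht x⟩, ?_, ?_⟩
  · intro v x
    apply Subtype.ext
    change (v : G) * x * (t ((v : G) * x))⁻¹ = (v : G) * (x * (t x)⁻¹)
    rw [ht2 v.1 v.2, mul_assoc]
  · intro v
    apply Subtype.ext
    change (v : G) * (t (v : G))⁻¹ = (v : G)
    rw [ht1 v.1 v.2, inv_one, mul_one]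

theorem SHA_contu [TopologicalSpace G] [IsTopologicalGroup G] (N : Subgroup G)
    (hN : IsOpen (N : Set G)) (u : G → N) (hu : ∀ (v : N) (x : G), u ((v : G) * x) = v * u x) :
    Continuous u := by
  rw [continuous_iff_continuousAt]
  intro x0
  have h1 : ContinuousAt (fun x : G => x * x0⁻¹ * (u x0 : G)) x0 := by
    apply Continuous.continuousAt
    exact (continuous_id.mul continuous_const).mul continuous_const
  have h2 : ∀ᶠ x in 𝓝 x0, x * x0⁻¹ ∈ N := by
    have h3 : Continuous (fun x : G => x * x0⁻¹) := continuous_id.mul continuous_const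
    have h4 : IsOpen ((fun x : G => x * x0⁻¹) ⁻¹' (N : Set G)) := hN.preimage h3
    apply h4.mem_nhds
    change x0 * x0⁻¹ ∈ N
    rw [mul_inv_cancel]
    exact N.one_mem
  have h5 : (fun x : G => x * x0⁻¹ * (u x0 : G)) =ᶠ[𝓝 x0] (fun x : G => (u x : G)) := by
    filter_upwards [h2] with x hx
    have h6 := hu ⟨x * x0⁻¹, hx⟩ x0
    have h7 : ((⟨x * x0⁻¹, hx⟩ : N) : G) * x0 = x := by
      change x * x0⁻¹ * x0 = x
      group
    rw [h7] at h6
    rw [h6]
    rfl
  have h8 : ContinuousAt (fun x : G => (u x : G)) x0 := h1.congr h5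
  exact Topology.IsInducing.subtypeVal.continuousAt_iff.2 h8

/-- A function on a group with values in the induced module is locally constant if all its
evaluations are. -/
theorem SHA_lc [TopologicalSpace G] [IsTopologicalGroup G] [CompactSpace G] (p : ℕ)
    (N : Subgroup G) (hN : IsOpen (N : Set G)) {X : Type} [TopologicalSpace X] (h : X → IndF p N)
    (hh : ∀ x : G, IsLocallyConstant (fun y : X => (h y).1 x)) : IsLocallyConstant h := by
  have : Finite (G ⧸ N) := Subgroup.quotient_finite_of_isOpen N hN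
  rw [IsLocallyConstant.iff_eventually_eq]
  intro y
  have h1 : ∀ᶠ z in 𝓝 y, ∀ q : G ⧸ N, (h z).1 (q.out)⁻¹ = (h y).1 (q.out)⁻¹ := by
    rw [Filter.eventually_all]
    intro q
    exact (IsLocallyConstant.iff_eventually_eq _).1 (hh (q.out)⁻¹) y
  filter_upwards [h1] with z hz
  apply Subtype.ext
  funext x
  have h2 : ((QuotientGroup.mk x⁻¹ : G ⧸ N).out)⁻¹ * x⁻¹ ∈ N :=
    QuotientGroup.eq.1 (QuotientGroup.out_eq' _)
  have h3 : x = (((QuotientGroup.mk x⁻¹ : G ⧸ N).out)⁻¹ * x⁻¹)⁻¹ *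
      ((QuotientGroup.mk x⁻¹ : G ⧸ N).out)⁻¹ := by group
  have h4 := hz (QuotientGroup.mk x⁻¹ : G ⧸ N)
  rw [h3]
  rw [(h z).2 _ (N.inv_mem h2), (h y).2 _ (N.inv_mem h2)]
  exact h4

/-- evaluation at one -/
def SHA_ev (p : ℕ) (N : Subgroup G) : (G → G → IndF p N) →+ (N → N → Fp p) where
  toFun f := fun a b => (f a b).1 1
  map_zero' := rfl
  map_add' _ _ := rfl

theorem SHA_ev_Z2 [TopologicalSpace G] (p : ℕ) (N : Subgroup G) :
    (Z2 G (IndF p N)).map (SHA_ev p N) ≤ Z2 N (Fp p) := by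
  rintro _ ⟨f, ⟨hf, hf'⟩, rfl⟩
  refine ⟨?_, ?_⟩
  · have h1 : Continuous (fun x : N × N => ((x.1 : G), (x.2 : G))) :=
      (continuous_subtype_val.comp continuous_fst).prodMk
        (continuous_subtype_val.comp continuous_snd)
    have h2 := (IsLocallyConstant.comp_continuous hf h1)
    exact h2.comp (fun φ : IndF p N => (φ.1 1 : ZMod p))
  · intro a b c
    have h1 := hf' (a : G) (b : G) (c : G)
    have h2 := congrFun (congrArg Subtype.val h1) 1
    have h3 : (f (b : G) (c : G)).1 (1 * (a : G)) = (f (b : G) (c : G)).1 1 := by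
      rw [one_mul]
      have h4 := (f (b : G) (c : G)).2 (a : G) a.2 1
      rw [mul_one] at h4
      exact h4
    have h5 : (f (b : G) (c : G)).1 (1 * (a : G)) - (f ((a : G) * b) c).1 1
        + (f (a : G) ((b : G) * c)).1 1 - (f (a : G) (b : G)).1 1 = 0 := h2
    rw [h3] at h5
    exact h5

theorem SHA_claim [TopologicalSpace G] [IsTopologicalGroup G] [CompactSpace G] (p : ℕ)
    (N : Subgroup G) (hN : IsOpen (N : Set G)) :
    (B2 N (Fp p)).comap (SHA_ev p N) ⊓ Z2 G (IndF p N) ≤ B2 G (IndF p N) := by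
  rintro f ⟨⟨b, hb, hbf⟩, ⟨hf, hf'⟩⟩
  obtain ⟨u, hu, hu1⟩ := SHA_exu N
  have huc := SHA_contu N hN u hu
  let b0 : N → ZMod p := b
  let F : G → G → G → ZMod p := fun x0 x1 x2 => (f (x0⁻¹ * x1) (x1⁻¹ * x2)).1 x0
  have hFco : ∀ x0 x1 x2 x3 : G, F x1 x2 x3 - F x0 x2 x3 + F x0 x1 x3 - F x0 x1 x2 = 0 := by
    intro x0 x1 x2 x3
    have h1 := hf' (x0⁻¹ * x1) (x1⁻¹ * x2) (x2⁻¹ * x3)
    have h2 := congrFun (congrArg Subtype.val h1) x0
    have h5 : (f (x1⁻¹ * x2) (x2⁻¹ * x3)).1 (x0 * (x0⁻¹ * x1))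
        - (f (x0⁻¹ * x1 * (x1⁻¹ * x2)) (x2⁻¹ * x3)).1 x0
        + (f (x0⁻¹ * x1) (x1⁻¹ * x2 * (x2⁻¹ * x3))).1 x0
        - (f (x0⁻¹ * x1) (x1⁻¹ * x2)).1 x0 = 0 := h2
    have e1 : x0 * (x0⁻¹ * x1) = x1 := by group
    have e2 : x0⁻¹ * x1 * (x1⁻¹ * x2) = x0⁻¹ * x2 := by group
    have e3 : x1⁻¹ * x2 * (x2⁻¹ * x3) = x1⁻¹ * x3 := by group
    rw [e1, e2, e3] at h5
    exact h5
  have hFinv : ∀ (v : N) (x0 x1 x2 : G),
      F ((v : G) * x0) ((v : G) * x1) ((v : G) * x2) = F x0 x1 x2 := by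
    intro v x0 x1 x2
    change (f (((v : G) * x0)⁻¹ * ((v : G) * x1)) (((v : G) * x1)⁻¹ * ((v : G) * x2))).1
      ((v : G) * x0) = (f (x0⁻¹ * x1) (x1⁻¹ * x2)).1 x0
    have e1 : ((v : G) * x0)⁻¹ * ((v : G) * x1) = x0⁻¹ * x1 := by group
    have e2 : ((v : G) * x1)⁻¹ * ((v : G) * x2) = x1⁻¹ * x2 := by group
    rw [e1, e2]
    exact (f (x0⁻¹ * x1) (x1⁻¹ * x2)).2 (v : G) v.2 x0
  have hFN : ∀ a c d : N, F (a : G) (c : G) (d : G) =
      b0 (c⁻¹ * d) - b0 (a⁻¹ * d) + b0 (a⁻¹ * c) := by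
    intro a c d
    have h1 := hbf (a⁻¹ * c) (c⁻¹ * d)
    have h2 : (f ((a : G)⁻¹ * c) ((c : G)⁻¹ * d)).1 1 =
      b0 (c⁻¹ * d) - b0 (a⁻¹ * c * (c⁻¹ * d)) + b0 (a⁻¹ * c) := h1
    have e1 : a⁻¹ * c * (c⁻¹ * d) = a⁻¹ * d := by group
    rw [e1] at h2
    rw [← h2]
    have h4 := (f ((a : G)⁻¹ * c) ((c : G)⁻¹ * d)).2 (a : G) a.2 1
    rw [mul_one] at h4
    exact h4
  let P : G → G → ZMod p := fun x y => F x (u x) (u y) - F x y (u y)
  have hPinv : ∀ (v : N) (x y : G), P ((v : G) * x) ((v : G) * y) = P x y := by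
    intro v x y
    change F ((v : G) * x) (u ((v : G) * x)) (u ((v : G) * y))
      - F ((v : G) * x) ((v : G) * y) (u ((v : G) * y)) = F x (u x) (u y) - F x y (u y)
    rw [hu, hu, Subgroup.coe_mul, Subgroup.coe_mul, hFinv, hFinv]
  let h : G → IndF p N := fun g => ⟨fun x => b0 ((u x)⁻¹ * u (x * g)) - P x (x * g), by
    intro v hv x
    change b0 ((u (v * x))⁻¹ * u (v * x * g)) - P (v * x) (v * x * g)
      = b0 ((u x)⁻¹ * u (x * g)) - P x (x * g)
    have h1 := hu ⟨v, hv⟩ x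
    have h2 := hu ⟨v, hv⟩ (x * g)
    have h3 := hPinv ⟨v, hv⟩ x (x * g)
    have h1' : u (v * x) = ⟨v, hv⟩ * u x := h1
    have h2' : u (v * (x * g)) = ⟨v, hv⟩ * u (x * g) := h2
    have h3' : P (v * x) (v * (x * g)) = P x (x * g) := h3
    rw [mul_assoc v x g, h1', h2', h3']
    have e1 : (⟨v, hv⟩ * u x)⁻¹ * (⟨v, hv⟩ * u (x * g)) = (u x)⁻¹ * u (x * g) := by group
    rw [e1]⟩
  refine ⟨h, ?_, ?_⟩
  · apply SHA_lc p N hN
    intro x
    have c1 : Continuous (fun g : G => x * g) := continuous_const.mul continuous_id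
    have c2 : Continuous (fun g : G => u (x * g)) := huc.comp c1
    have c3 : Continuous (fun g : G => (u x)⁻¹ * u (x * g)) := continuous_const.mul c2
    have c4 : Continuous (fun g : G => ((u (x * g) : N) : G)) := continuous_subtype_val.comp c2
    have l1 : IsLocallyConstant (fun g : G => b0 ((u x)⁻¹ * u (x * g))) :=
      IsLocallyConstant.comp_continuous hb c3
    have l2 : IsLocallyConstant (fun g : G => F x (u x) (u (x * g))) := by
      have c5 : Continuous (fun g : G => (x⁻¹ * (u x : G), (u x : G)⁻¹ * (u (x * g) : G))) :=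
        continuous_const.prodMk (continuous_const.mul c4)
      have l3 := IsLocallyConstant.comp_continuous hf c5
      exact l3.comp (fun φ : IndF p N => (φ.1 x : ZMod p))
    have l3 : IsLocallyConstant (fun g : G => F x (x * g) (u (x * g))) := by
      have c5 : Continuous (fun g : G => (x⁻¹ * (x * g), (x * g)⁻¹ * (u (x * g) : G))) :=
        (continuous_const.mul c1).prodMk (c1.inv.mul c4)
      have l3 := IsLocallyConstant.comp_continuous hf c5
      exact l3.comp (fun φ : IndF p N => (φ.1 x : ZMod p))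
    have l4 := l1.sub (l2.sub l3)
    exact l4
  · intro a c
    apply Subtype.ext
    funext x
    change (f a c).1 x = (b0 ((u (x * a))⁻¹ * u (x * a * c)) - P (x * a) (x * a * c))
      - (b0 ((u x)⁻¹ * u (x * (a * c))) - P x (x * (a * c)))
      + (b0 ((u x)⁻¹ * u (x * a)) - P x (x * a))
    have e0 : (f a c).1 x = F x (x * a) (x * a * c) := by
      change (f a c).1 x = (f (x⁻¹ * (x * a)) ((x * a)⁻¹ * (x * a * c))).1 x
      have e1 : x⁻¹ * (x * a) = a := by group
      have e2 : (x * a)⁻¹ * (x * a * c) = c := by group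
      rw [e1, e2]
    rw [e0, ← mul_assoc x a c]
    generalize x * a * c = x2
    generalize x * a = x1
    have r1 := hFco x x1 x2 (u x2)
    have r2 := hFco x x1 (u x1) (u x2)
    have r3 := hFco x (u x) (u x1) (u x2)
    have r4 := hFN (u x) (u x1) (u x2)
    change F x x1 x2 = (b0 ((u x1)⁻¹ * u x2) - (F x1 (u x1) (u x2) - F x1 x2 (u x2)))
      - (b0 ((u x)⁻¹ * u x2) - (F x (u x) (u x2) - F x x2 (u x2)))
      + (b0 ((u x)⁻¹ * u x1) - (F x (u x) (u x1) - F x x1 (u x1)))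
    linear_combination r4 - r1 + r2 - r3

end SHA

/-- Row SHA. -/
theorem SHA_row : SHA_stmt := by
  intro p G _ _ _ _ N hN _ hne
  have key : (B2 G (IndF p N)).relIndex (Z2 G (IndF p N)) ∣
      ((B2 N (Fp p)).comap (SHA_ev p N)).relIndex (Z2 G (IndF p N)) := by
    have h1 := AddSubgroup.relIndex_dvd_of_le_left (Z2 G (IndF p N)) (SHA_claim p N hN)
    rw [AddSubgroup.inf_relIndex_right] at h1
    exact h1
  rw [AddSubgroup.relIndex_comap] at key
  have hne' : (B2 N (Fp p)).relIndex ((Z2 G (IndF p N)).map (SHA_ev p N)) ≠ 0 := by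
    intro h0
    exact hne (AddSubgroup.relIndex_eq_zero_of_le_right (SHA_ev_Z2 p N) h0)
  refine ⟨?_, ?_⟩
  · intro h0
    have h0' : (B2 G (IndF p N)).relIndex (Z2 G (IndF p N)) = 0 := h0
    rw [h0'] at key
    exact hne' (Nat.eq_zero_of_zero_dvd key)
  · have h1 := Nat.le_of_dvd (Nat.pos_of_ne_zero hne') key
    have h2 := AddSubgroup.relIndex_le_of_le_right (SHA_ev_Z2 p N) hne
    exact h1.trans h2

end Pool.Agent.PP2
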